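import Mathlib
import Pool.Agent.H632R3.CycFam

open Finset Filter Topology

namespace Pool.Agent.Results.MP_7e070a_pr.ExpProfile

set_option linter.unusedSectionVars false

noncomputable section

section Defs

variable {n : ℕ} [NeZero n] (μ : ZMod n → ℝ)

/-- The `t`-step law `μ^{*t}` of the walk started at `0`. -/
def convPow : ℕ → ZMod n → ℝ
  | 0 => fun x => if x = 0 then 1 else 0
  | t + 1 => fun x => ∑ y, μ y * convPow t (x - y)

/-- Total variation distance of `μ^{*t}` to the uniform law. -/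
def tvd (t : ℕ) : ℝ := (1 / 2) * ∑ x, |convPow μ t x - 1 / (n : ℝ)|

/-- `T_mix(ε) = min {t : tvd μ t ≤ ε}`. -/
def Tmix (ε : ℝ) : ℕ := sInf {t : ℕ | tvd μ t ≤ ε}

/-- The eigenvalues `∑_x μ(x) cos(2πjx/n)`. -/
def muHat (j : ZMod n) : ℝ := ∑ x : ZMod n, μ x * Real.cos (2 * Real.pi * j.val * x.val / n)

/-- The largest absolute value of an eigenvalue with `j ≠ 0`. -/
def lamStar : ℝ := ⨆ j : {j : ZMod n // j ≠ 0}, |muHat μ j.1|

/-- The relaxation time, with the absolute spectral gap. -/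
def Trel : ℝ := 1 / (1 - lamStar μ)

/-- `μ` is a symmetric probability measure whose convolution walk is irreducible and aperiodic. -/
structure IsWalk : Prop where
  nonneg : ∀ x, 0 ≤ μ x
  sum_one : ∑ x, μ x = 1
  symm : ∀ x, μ (-x) = μ x
  irreducible : ∀ x, ∃ t, 0 < convPow μ t x
  aperiodic : ∀ d : ℕ, (∀ t, 0 < t → 0 < convPow μ t 0 → d ∣ t) → d = 1

end Defs

/-- The product condition `T_mix(1/4) / T_rel → ∞`. -/
def ProductCondition (n : ℕ → ℕ) [∀ k, NeZero (n k)] (μ : ∀ k, ZMod (n k) → ℝ) : Prop :=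
  Tendsto (fun k => (Tmix (μ k) (1 / 4) : ℝ) / Trel (μ k)) atTop atTop

/-- Total variation cutoff. -/
def HasCutoff (n : ℕ → ℕ) [∀ k, NeZero (n k)] (μ : ∀ k, ZMod (n k) → ℝ) : Prop :=
  ∀ ε : ℝ, 0 < ε → ε < 1 / 2 →
    Tendsto (fun k => (Tmix (μ k) ε : ℝ) / (Tmix (μ k) (1 - ε) : ℝ)) atTop (𝓝 1)

open Pool.Agent.H632R3.Conv

theorem convPow_eq {n : ℕ} [NeZero n] (μ : ZMod n → ℝ) (t : ℕ) : convPow μ t = cpow μ t := by
  induction t with
  | zero => rfl
  | succ t ih => funext x; simp only [convPow, cpow, conv, ih]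

theorem tvd_eq {n : ℕ} [NeZero n] (μ : ZMod n → ℝ) (t : ℕ) : tvd μ t = tv (cpow μ t) := by
  unfold tvd tv
  rw [convPow_eq, ZMod.card]

theorem isWalk (k : ℕ) : IsWalk (mu k) where
  nonneg x := (mu_pos k x).le
  sum_one := mu_sum k
  symm := mu_neg k
  irreducible x := ⟨1, by
    rw [convPow_eq]
    simp only [cpow, conv]
    rw [Finset.sum_eq_single x]
    · simp [mu_pos]
    · intro y _ hy
      rw [if_neg (fun h => hy (sub_eq_zero.mp h).symm), mul_zero]
    · simp⟩
  aperiodic d h := by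
    have h1 := h 1 one_pos (by
      rw [convPow_eq]
      simp only [cpow, conv]
      rw [Finset.sum_eq_single (0 : ZMod (nn k))]
      · simp [mu_pos]
      · intro y _ hy
        rw [if_neg (fun h => hy (sub_eq_zero.mp h).symm), mul_zero]
      · simp)
    exact Nat.dvd_one.mp h1

theorem lamStar_le (k : ℕ) : lamStar (mu k) ≤ 1 - 1 / (mm k : ℝ) := by
  have hn : 1 < nn k := by have := mm_le_nn k; have := mm_ge k; omega
  haveI : Nontrivial (ZMod (nn k)) := (ZMod.nontrivial_iff).mpr (by omega)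
  haveI : Nonempty {j : ZMod (nn k) // j ≠ 0} := by
    obtain ⟨j, hj⟩ := exists_ne (0 : ZMod (nn k))
    exact ⟨⟨j, hj⟩⟩
  refine ciSup_le fun j => ?_
  unfold muHat
  rw [hat_cos]
  exact (Complex.abs_re_le_norm _).trans (mu_hat k (mulShift_ne_zero j.2))

theorem lamStar_nonneg (k : ℕ) : 0 ≤ lamStar (mu k) :=
  Real.iSup_nonneg fun _ => abs_nonneg _

theorem Trel_pos (k : ℕ) : 0 < Trel (mu k) := by
  have hm : (0 : ℝ) < mm k := by exact_mod_cast mm_pos k
  have h1 := lamStar_le k
  have : 0 < 1 / (mm k : ℝ) := by positivity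
  unfold Trel
  exact div_pos one_pos (by linarith)

theorem Trel_le (k : ℕ) : Trel (mu k) ≤ mm k := by
  have hm : (0 : ℝ) < mm k := by exact_mod_cast mm_pos k
  have h1 := lamStar_le k
  have h2 : 0 < 1 / (mm k : ℝ) := by positivity
  unfold Trel
  rw [div_le_iff₀ (by linarith)]
  calc (1 : ℝ) = mm k * (1 / mm k) := by field_simp
    _ ≤ mm k * (1 - lamStar (mu k)) := mul_le_mul_of_nonneg_left (by linarith) hm.le

theorem profile (s : ℝ) (hs : 0 < s) :
    Tendsto (fun k => tvd (mu k) ⌊s * TT k⌋₊) atTop (𝓝 (Real.exp (-s))) := by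
  simp_rw [tvd_eq]
  exact mu_profile s hs.le

theorem anti (k : ℕ) : Antitone (tvd (mu k)) := by
  have h := tv_antitone (fun x => (mu_pos k x).le) (mu_sum k)
  intro a b hab
  rw [tvd_eq, tvd_eq]
  exact h hab

theorem tmix_lim (ε : ℝ) (h0 : 0 < ε) (h1 : ε < 1) :
    Tendsto (fun k => (Tmix (mu k) ε : ℝ) / TT k) atTop (𝓝 (Real.log (1 / ε))) := by
  have hL : 0 < Real.log (1 / ε) := Real.log_pos (by rw [lt_div_iff₀ h0]; linarith)
  rw [tendsto_order]
  have key : ∀ s, Real.exp (-s) = Real.exp (Real.log (1 / ε) - s) * ε := by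
    intro s
    rw [sub_eq_add_neg, Real.exp_add, Real.exp_log (by positivity)]
    field_simp
  constructor
  · intro a ha
    obtain ⟨s, hs1, hs2⟩ := exists_between (max_lt ha hL)
    have hs0 : 0 < s := lt_of_le_of_lt (le_max_right _ _) hs1
    have hsa : a < s := lt_of_le_of_lt (le_max_left _ _) hs1
    have h3 : ε < Real.exp (-s) := by
      rw [key s]
      have : 1 < Real.exp (Real.log (1 / ε) - s) := Real.one_lt_exp_iff.mpr (by linarith)
      nlinarith
    filter_upwards [le_tmix anti TT_lim profile h0 hs0 h3, TT_lim.eventually_gt_atTop 0]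
      with k hk hT
    refine lt_of_lt_of_le hsa ?_
    rw [le_div_iff₀ hT]
    exact hk
  · intro a ha
    obtain ⟨s, hs1, hs2⟩ := exists_between ha
    have h3 : Real.exp (-s) < ε := by
      rw [key s]
      have : Real.exp (Real.log (1 / ε) - s) < 1 := Real.exp_lt_one_iff.mpr (by linarith)
      nlinarith
    filter_upwards [tmix_le TT_lim profile (hL.trans hs1) h3, TT_lim.eventually_gt_atTop 0]
      with k hk hT
    refine lt_of_le_of_lt ?_ hs2
    rw [div_le_iff₀ hT]
    exact hk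

theorem TT_div (k : ℕ) : (k : ℝ) + 1 ≤ TT k / Trel (mu k) := by
  have h1 := Trel_pos k
  have h2 := Trel_le k
  have h3 : (0 : ℝ) ≤ k := Nat.cast_nonneg k
  rw [le_div_iff₀ h1]
  unfold TT
  nlinarith

theorem product : ProductCondition nn mu := by
  unfold ProductCondition
  have e1 : (1 / 4 : ℝ) < Real.exp (-1) := by
    rw [Real.exp_neg, lt_inv_comm₀ (by norm_num) (Real.exp_pos 1)]
    have := Real.exp_one_lt_d9
    norm_num
    linarith
  have h1 := le_tmix anti TT_lim profile (by norm_num) one_pos e1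
  refine tendsto_atTop_mono' _ ?_
    (tendsto_atTop_add_const_right _ 1 tendsto_natCast_atTop_atTop : Tendsto
      (fun k : ℕ => (k : ℝ) + 1) atTop atTop)
  filter_upwards [h1] with k hk
  refine (TT_div k).trans ?_
  exact div_le_div_of_nonneg_right (by rw [one_mul] at hk; exact hk) (Trel_pos k).le

/-- There are symmetric, irreducible, aperiodic convolution walks on cycles `ZMod (n k)`,
`n k → ∞`, and times `T k` with `T k / T_rel → ∞`, such that the distance to uniformity at time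
`⌊s T k⌋` tends to `exp(-s)` for every `s > 0`. In particular `T_mix(ε)/T k → log(1/ε)` for every
`ε ∈ (0,1)`; the product condition holds and there is no cutoff (not even a pre-cutoff). -/
theorem result :
    ∃ (n : ℕ → ℕ) (_ : ∀ k, NeZero (n k)) (μ : ∀ k, ZMod (n k) → ℝ) (T : ℕ → ℝ),
      (∀ k, 2 ≤ n k) ∧ Tendsto n atTop atTop ∧ (∀ k, IsWalk (μ k)) ∧
      ProductCondition n μ ∧ ¬ HasCutoff n μ ∧
      Tendsto T atTop atTop ∧ Tendsto (fun k => T k / Trel (μ k)) atTop atTop ∧
      (∀ s : ℝ, 0 < s → Tendsto (fun k => tvd (μ k) ⌊s * T k⌋₊) atTop (𝓝 (Real.exp (-s)))) ∧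
      (∀ ε : ℝ, 0 < ε → ε < 1 →
        Tendsto (fun k => (Tmix (μ k) ε : ℝ) / T k) atTop (𝓝 (Real.log (1 / ε)))) := by
  refine ⟨nn, inferInstance, mu, TT, fun k => ?_, ?_, isWalk, product, ?_, TT_lim, ?_,
    profile, tmix_lim⟩
  · have := mm_le_nn k; have := mm_ge k; omega
  · refine tendsto_atTop_mono (fun k => ?_) tendsto_id
    have := mm_le_nn k
    have := lt_mm k
    simp only [id]
    omega
  · exact no_cutoff anti TT_lim profile
  · refine tendsto_atTop_mono (fun k => TT_div k)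
      (tendsto_atTop_add_const_right _ 1 tendsto_natCast_atTop_atTop : Tendsto
        (fun k : ℕ => (k : ℝ) + 1) atTop atTop)

end

end Pool.Agent.Results.MP_7e070a_pr.ExpProfile
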